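import Pool.Agent.W259.GS.Comb

/-!
# Rich edges, local version
-/

namespace Pool.Agent.TH346.LG

open Finset Pool.Agent.W259.GS

open Classical in
/-- weight of the ball of radius `r` about `v` -/
noncomputable def bw {V : Type} [Fintype V] (G : SimpleGraph V) (w : V → ℝ) (r : ℕ) (v : V) : ℝ :=
  ∑ z, if G.edist v z ≤ (r : ℕ∞) then w z else 0

open Classical in
/-- weight of the neighbourhood -/
noncomputable def nw {V : Type} [Fintype V] (G : SimpleGraph V) (w : V → ℝ) (v : V) : ℝ :=
  ∑ z, if G.Adj v z then w z else 0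

theorem near_trans {V : Type} {G : SimpleGraph V} {u v z : V} {r s : ℕ} (t : ℕ)
    (h1 : G.edist u v ≤ (r : ℕ∞)) (h2 : G.edist v z ≤ (s : ℕ∞)) (h : r + s ≤ t) :
    G.edist u z ≤ (t : ℕ∞) := by
  refine (SimpleGraph.edist_triangle).trans ((add_le_add h1 h2).trans ?_)
  exact_mod_cast h

theorem near_symm {V : Type} {G : SimpleGraph V} {u v : V} {r : ℕ}
    (h1 : G.edist u v ≤ (r : ℕ∞)) : G.edist v u ≤ (r : ℕ∞) := by
  rwa [SimpleGraph.edist_comm]

theorem near_adj {V : Type} {G : SimpleGraph V} {u v : V} (h : G.Adj u v) :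
    G.edist u v ≤ ((1 : ℕ) : ℕ∞) := by
  have := SimpleGraph.edist_eq_one_iff_adj.2 h
  rw [this]
  norm_num

section
variable {V : Type} [Fintype V] (G : SimpleGraph V) (w : V → ℝ) (hw : ∀ v, 0 ≤ w v)
include hw

theorem bw_mono {r s : ℕ} {u v : V}
    (h : ∀ z, G.edist u z ≤ (r : ℕ∞) → G.edist v z ≤ (s : ℕ∞)) :
    bw G w r u ≤ bw G w s v := by
  unfold bw
  apply Finset.sum_le_sum
  intro z _
  by_cases h1 : G.edist u z ≤ (r : ℕ∞)
  · rw [if_pos h1, if_pos (h z h1)]
  · rw [if_neg h1]
    split_ifs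
    · exact hw z
    · exact le_rfl

theorem nw_le_bw {s : ℕ} {u v : V} (h : ∀ z, G.Adj u z → G.edist v z ≤ (s : ℕ∞)) :
    nw G w u ≤ bw G w s v := by
  unfold nw bw
  apply Finset.sum_le_sum
  intro z _
  by_cases h1 : G.Adj u z
  · rw [if_pos h1, if_pos (h z h1)]
  · rw [if_neg h1]
    split_ifs
    · exact hw z
    · exact le_rfl

theorem exch_le_nw {Q : Finset V} {u v : V} (hu : u ∈ Q) (huv : u ≠ v) :
    exch G w Q v ≤ nw G w u := by
  unfold exch nw
  apply Finset.sum_le_sum
  intro z _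
  by_cases h1 : ∀ q ∈ Q, q ≠ v → G.Adj q z
  · rw [if_pos h1, if_pos (h1 u hu huv)]
  · rw [if_neg h1]
    split_ifs
    · exact hw z
    · exact le_rfl

end

/-- Greedy colouring. -/
theorem greedy {X : Type} [Fintype X] (R : X → X → Prop) (hR : ∀ x y, R x y → R y x) (M : ℕ)
    (hM : ∀ (x : X) (Y : Finset X), (∀ y ∈ Y, R x y) → Y.card < M) :
    ∃ κ : X → Fin M, ∀ x y, x ≠ y → R x y → κ x ≠ κ y := by
  classical
  by_cases hX : Nonempty X
  swap
  · exact ⟨fun x => absurd ⟨x⟩ hX, fun x => absurd ⟨x⟩ hX⟩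
  have hM0 : 0 < M := by
    obtain ⟨x⟩ := hX
    have := hM x ∅ (by simp)
    simpa using this
  have key : ∀ Y : Finset X, ∃ κ : X → Fin M, ∀ x ∈ Y, ∀ y ∈ Y, x ≠ y → R x y → κ x ≠ κ y := by
    intro Y
    induction Y using Finset.induction_on with
    | empty => exact ⟨fun _ => ⟨0, hM0⟩, by simp⟩
    | insert a Y ha ih =>
      obtain ⟨κ, hκ⟩ := ih
      have h1 : ((Y.filter (fun y => R a y)).image κ).card < M :=
        lt_of_le_of_lt Finset.card_image_le (hM a _ (fun y hy => (Finset.mem_filter.1 hy).2))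
      obtain ⟨t, ht⟩ : ∃ t : Fin M, t ∉ (Y.filter (fun y => R a y)).image κ := by
        by_contra hno
        push Not at hno
        have h2 : (Finset.univ : Finset (Fin M)) ⊆ (Y.filter (fun y => R a y)).image κ :=
          fun t _ => hno t
        have h3 := Finset.card_le_card h2
        rw [Finset.card_univ, Fintype.card_fin] at h3
        omega
      have ht' : ∀ y ∈ Y, R a y → κ y ≠ t := by
        intro y hy hr h4
        exact ht (Finset.mem_image.2 ⟨y, Finset.mem_filter.2 ⟨hy, hr⟩, h4⟩)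
      refine ⟨Function.update κ a t, ?_⟩
      intro x hx y hy hxy hr
      rcases Finset.mem_insert.1 hx with h5 | h5
      · rcases Finset.mem_insert.1 hy with h6 | h6
        · exact absurd (h5.trans h6.symm) hxy
        · have hya : y ≠ a := fun h => ha (h ▸ h6)
          rw [h5, Function.update_self, Function.update_of_ne hya]
          exact fun h => ht' y h6 (h5 ▸ hr) h.symm
      · have hxa : x ≠ a := fun h => ha (h ▸ h5)
        rcases Finset.mem_insert.1 hy with h6 | h6
        · rw [h6, Function.update_self, Function.update_of_ne hxa]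
          exact ht' x h5 (hR _ _ (h6 ▸ hr))
        · have hya : y ≠ a := fun h => ha (h ▸ h6)
          rw [Function.update_of_ne hxa, Function.update_of_ne hya]
          exact hκ x h5 y h6 hxy hr
  obtain ⟨κ, hκ⟩ := key Finset.univ
  exact ⟨κ, fun x y => hκ x (Finset.mem_univ _) y (Finset.mem_univ _)⟩

theorem local_main {α : Type} [Fintype α] (F : SimpleGraph α) (hF : F.Colorable 2) (k : ℕ) (ε : ℝ)
    (hε : 0 < ε) : ∃ C : ℕ, ∀ (V : Type) [Fintype V] (G : SimpleGraph V) (w : V → ℝ),
    (∀ v, 0 ≤ w v) → G.CliqueFree (k + 1) → IsEmpty (F ↪g G) →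
    ∃ c : V → Fin C, ∀ u v, G.Adj u v → c u = c v → ∀ Q : Finset V, G.IsClique (Q : Set V) →
      (∀ z, ∃ q ∈ Q, ¬ G.Adj q z) → u ∈ Q → v ∈ Q → 0 < exch G w Q v →
      exch G w Q v < ε * bw G w 6 u := by
  classical
  obtain ⟨C₀, hC₀⟩ := main F hF k ε hε
  obtain ⟨M, hM⟩ := exists_nat_gt (1 / ε ^ 2)
  refine ⟨C₀ * M + 1, ?_⟩
  intro V _ G w hw hfree hemp
  obtain ⟨W, hW⟩ : ∃ W : V → Prop, ∀ u, W u ↔ (0 < nw G w u ∧ ε * bw G w 6 u ≤ nw G w u) :=
    ⟨_, fun u => Iff.rfl⟩
  -- maximal family with disjoint neighbourhoods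
  obtain ⟨X, hXW, hXd, hXm⟩ : ∃ X : Finset V, (∀ x ∈ X, W x) ∧
      (∀ x ∈ X, ∀ y ∈ X, x ≠ y → ∀ z, G.Adj x z → ¬ G.Adj y z) ∧
      ∀ u, W u → ∃ x ∈ X, ∃ z, G.Adj u z ∧ G.Adj x z := by
    obtain ⟨P, hP⟩ : ∃ P : Finset V → Prop, ∀ I, P I ↔ ((∀ x ∈ I, W x) ∧
      (∀ x ∈ I, ∀ y ∈ I, x ≠ y → ∀ z, G.Adj x z → ¬ G.Adj y z)) := ⟨_, fun I => Iff.rfl⟩
    have hne : ((Finset.univ : Finset (Finset V)).filter P).Nonempty :=
      ⟨∅, Finset.mem_filter.2 ⟨Finset.mem_univ _, (hP ∅).2 (by simp)⟩⟩
    obtain ⟨X, hX, hmax⟩ := Finset.exists_max_image _ Finset.card hne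
    have hXP := (hP X).1 (Finset.mem_filter.1 hX).2
    refine ⟨X, hXP.1, hXP.2, ?_⟩
    intro u hu
    by_cases huX : u ∈ X
    · have h1 : ∃ z, G.Adj u z := by
        by_contra hno
        push Not at hno
        have h2 : nw G w u = 0 := by
          unfold nw
          apply Finset.sum_eq_zero
          intro z _
          rw [if_neg (hno z)]
        have := ((hW u).1 hu).1
        linarith
      obtain ⟨z, hz⟩ := h1
      exact ⟨u, huX, z, hz, hz⟩
    · by_contra hno
      push Not at hno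
      have h2 : insert u X ∈ (Finset.univ : Finset (Finset V)).filter P := by
        rw [Finset.mem_filter, hP]
        refine ⟨Finset.mem_univ _, ?_, ?_⟩
        · intro x hx
          rcases Finset.mem_insert.1 hx with h3 | h3
          · rw [h3]; exact hu
          · exact hXP.1 x h3
        · intro x hx y hy hxy z hxz
          rcases Finset.mem_insert.1 hx with h3 | h3
          · rcases Finset.mem_insert.1 hy with h4 | h4
            · exact absurd (h3.trans h4.symm) hxy
            · rw [h3] at hxz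
              exact hno y h4 z hxz
          · rcases Finset.mem_insert.1 hy with h4 | h4
            · rw [h4]
              exact fun h5 => hno x h3 z h5 hxz
            · exact hXP.2 x h3 y h4 hxy z hxz
      have h3 := hmax _ h2
      rw [Finset.card_insert_of_notMem huX] at h3
      omega
  have hXm' : ∀ u, W u → ∃ x : X, ∃ z, G.Adj u z ∧ G.Adj (x : V) z := by
    intro u hu
    obtain ⟨x, hx, z, hz⟩ := hXm u hu
    exact ⟨⟨x, hx⟩, z, hz⟩
  choose π hπ using hXm'
  have hnear : ∀ u (hu : W u), G.edist u (π u hu) ≤ ((2 : ℕ) : ℕ∞) := by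
    intro u hu
    obtain ⟨z, h1, h2⟩ := hπ u hu
    exact near_trans 2 (near_adj h1) (near_adj h2.symm) (by norm_num)
  -- local colourings
  have hlocal : ∀ x : X, ∃ c : V → Fin C₀, ∀ u v, G.Adj u v → c u = c v → ∀ Q : Finset V,
      G.IsClique (Q : Set V) → (∀ z, ∃ q ∈ Q, ¬ G.Adj q z) → u ∈ Q → v ∈ Q →
      G.edist u (x : V) ≤ ((2 : ℕ) : ℕ∞) → exch G w Q v < ε * bw G w 6 u := by
    rintro ⟨x, hx⟩
    have hxW := (hW x).1 (hXW x hx)
    have hB : 0 < bw G w 3 x := by
      refine lt_of_lt_of_le hxW.1 (nw_le_bw G w hw ?_)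
      intro z hz
      exact near_trans 3 (near_adj hz) (r := 1) (s := 0) (by simp) (by norm_num)
    obtain ⟨c, hc⟩ := hC₀ V G (fun z => if G.edist x z ≤ ((3 : ℕ) : ℕ∞) then w z / bw G w 3 x else 0)
      (by
        intro v
        split_ifs
        · exact div_nonneg (hw v) hB.le
        · exact le_rfl)
      (by
        have h1 : ∀ z, (if G.edist x z ≤ ((3 : ℕ) : ℕ∞) then w z / bw G w 3 x else 0) =
            (if G.edist x z ≤ ((3 : ℕ) : ℕ∞) then w z else 0) / bw G w 3 x := by
          intro z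
          split_ifs
          · rfl
          · simp
        simp only [h1]
        rw [← Finset.sum_div]
        exact div_self hB.ne')
      hfree hemp
    refine ⟨c, ?_⟩
    intro u v huv huc Q hQ hQm hu hv hux
    have h1 := (hc u v huv huc Q hQ hQm hu hv).2
    have h2 : exch G (fun z => if G.edist x z ≤ ((3 : ℕ) : ℕ∞) then w z / bw G w 3 x else 0) Q v =
        exch G w Q v / bw G w 3 x := by
      unfold exch
      rw [Finset.sum_div]
      apply Finset.sum_congr rfl
      intro z _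
      by_cases h3 : ∀ q ∈ Q, q ≠ v → G.Adj q z
      · rw [if_pos h3, if_pos h3]
        have h4 : G.edist x z ≤ ((3 : ℕ) : ℕ∞) :=
          near_trans 3 (near_symm hux) (near_adj (h3 u hu huv.ne)) (by norm_num)
        exact if_pos h4
      · rw [if_neg h3, if_neg h3]
        simp
    rw [h2, div_lt_iff₀ hB] at h1
    refine lt_of_lt_of_le h1 (mul_le_mul_of_nonneg_left ?_ hε.le)
    apply bw_mono G w hw
    intro z hz
    exact near_trans 6 hux hz (by norm_num)
  choose c hc using hlocal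
  -- colouring of the centres
  obtain ⟨κ, hκ⟩ : ∃ κ : X → Fin M, ∀ x y : X, x ≠ y → G.edist (x : V) (y : V) ≤ ((5 : ℕ) : ℕ∞) →
      κ x ≠ κ y := by
    apply greedy
    · intro x y h
      exact near_symm h
    · intro x Y hY
      have hx := (hW x).1 (hXW x x.2)
      have h1 : (Y.card : ℝ) * (ε * nw G w x) ≤ bw G w 6 x := by
        have h2 : ∀ y ∈ Y, ε * nw G w x ≤ nw G w y := by
          intro y hy
          have hyW := (hW y).1 (hXW y y.2)
          refine le_trans (mul_le_mul_of_nonneg_left ?_ hε.le) hyW.2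
          apply nw_le_bw G w hw
          intro z hz
          exact near_trans 6 (near_symm (hY y hy)) (near_adj hz) (by norm_num)
        have h3 : ∑ y ∈ Y, nw G w y ≤ bw G w 6 x := by
          unfold nw bw
          rw [Finset.sum_comm]
          apply Finset.sum_le_sum
          intro z _
          by_cases h4 : ∃ y ∈ Y, G.Adj (y : V) z
          · obtain ⟨y, hy, hyz⟩ := h4
            have h5 : G.edist (x : V) z ≤ ((6 : ℕ) : ℕ∞) :=
              near_trans 6 (hY y hy) (near_adj hyz) (by norm_num)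
            rw [if_pos h5, Finset.sum_eq_single_of_mem y hy, if_pos hyz]
            intro y' _ hne
            rw [if_neg]
            exact hXd y y.2 y' y'.2 (fun h => hne (Subtype.ext h.symm)) z hyz
          · push Not at h4
            rw [Finset.sum_eq_zero (fun y hy => if_neg (h4 y hy))]
            split_ifs
            · exact hw z
            · exact le_rfl
        calc (Y.card : ℝ) * (ε * nw G w x) = ∑ _y ∈ Y, ε * nw G w x := by
              rw [Finset.sum_const, nsmul_eq_mul]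
          _ ≤ ∑ y ∈ Y, nw G w y := Finset.sum_le_sum h2
          _ ≤ _ := h3
      have h2 : (Y.card : ℝ) * ε ^ 2 ≤ 1 := by
        have h3 : (Y.card : ℝ) * ε ^ 2 * nw G w x ≤ 1 * nw G w x := by
          calc (Y.card : ℝ) * ε ^ 2 * nw G w x = ε * ((Y.card : ℝ) * (ε * nw G w x)) := by ring
            _ ≤ ε * bw G w 6 x := mul_le_mul_of_nonneg_left h1 hε.le
            _ ≤ nw G w x := hx.2
            _ = 1 * nw G w x := (one_mul _).symm
        exact le_of_mul_le_mul_right h3 hx.1
      have h3 : (Y.card : ℝ) ≤ 1 / ε ^ 2 := by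
        rw [le_div_iff₀ (by positivity)]
        exact h2
      have h4 : (Y.card : ℝ) < M := lt_of_le_of_lt h3 hM
      exact_mod_cast h4
  have e : Option (Fin C₀ × Fin M) ≃ Fin (C₀ * M + 1) :=
    Fintype.equivFinOfCardEq (by simp)
  refine ⟨fun v => e (if h : W v then some (c (π v h) v, κ (π v h)) else none), ?_⟩
  intro u v huv huc Q hQ hQm hu hv hpos
  by_contra hge
  push Not at hge
  have h1 := exch_le_nw G w hw hu huv.ne (Q := Q) (v := v)
  have huW : W u := (hW u).2 ⟨lt_of_lt_of_le hpos h1, hge.trans h1⟩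
  have h2 := e.injective huc
  rw [dif_pos huW] at h2
  by_cases hvW : W v
  · rw [dif_pos hvW] at h2
    have h3 := Option.some_injective _ h2
    have h4 : c (π u huW) u = c (π v hvW) v := congrArg Prod.fst h3
    have h5 : κ (π u huW) = κ (π v hvW) := congrArg Prod.snd h3
    have h6 : π u huW = π v hvW := by
      by_contra hne
      refine hκ _ _ hne ?_ h5
      exact near_trans 5 (near_symm (hnear u huW))
        (near_trans 3 (near_adj huv) (hnear v hvW) (by norm_num)) (by norm_num)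
    rw [← h6] at h4
    have h7 := hc (π u huW) u v huv h4 Q hQ hQm hu hv (hnear u huW)
    linarith
  · rw [dif_neg hvW] at h2
    exact absurd h2 (by simp)

theorem local_comb {m : ℕ} (F : SimpleGraph (Fin m)) (hF : F.IsAcyclic) (k n : ℕ) (ε : ℝ)
    (hε : 0 < ε) : ∃ C : ℕ, ∀ (V : Type) [Fintype V] (G : SimpleGraph V) (w : V → ℝ),
    (∀ v, 0 ≤ w v) → G.CliqueFree (k + 1) → IsEmpty (F ↪g G) →
    (∀ a b : Fin n → V, (∀ i j, G.Adj (a i) (b j) ↔ i ≤ j) →
      ∃ u v, (u ∈ Set.range a ∨ u ∈ Set.range b) ∧ (v ∈ Set.range a ∨ v ∈ Set.range b) ∧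
        G.Adj u v ∧ ∃ Q : Finset V, G.IsClique (Q : Set V) ∧ (∀ z, ∃ q ∈ Q, ¬ G.Adj q z) ∧
          u ∈ Q ∧ v ∈ Q ∧ 0 < exch G w Q v ∧ ε * bw G w 6 u ≤ exch G w Q v) →
    G.Colorable C := by
  obtain ⟨C, hC⟩ := local_main F hF.colorable_two k ε hε
  obtain ⟨f, hf⟩ := Pool.Agent.H367R3.gyarfas_sumner_forest.{0} n m F hF
  refine ⟨C * ((Finset.range (k + 1)).sup f), ?_⟩
  intro V _ G w hw hfree hemp hhalf
  obtain ⟨c, hc⟩ := hC V G w hw hfree hemp
  apply colorable_of_classes G c
  intro i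
  have h1 : (G.induce {v | c v = i}).chromaticNumber ≤ f (G.induce {v | c v = i}).cliqueNum := by
    apply hf
    · rintro ⟨a, b, hab⟩
      obtain ⟨u, v, hu, hv, huv, Q, hQ, hQm, huQ, hvQ, hpos, hge⟩ :=
        hhalf (fun x => (a x : V)) (fun x => (b x : V)) (fun x y => hab x y)
      have hcu : c u = i := by
        rcases hu with ⟨x, rfl⟩ | ⟨x, rfl⟩
        · exact (a x).2
        · exact (b x).2
      have hcv : c v = i := by
        rcases hv with ⟨x, rfl⟩ | ⟨x, rfl⟩
        · exact (a x).2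
        · exact (b x).2
      have := hc u v huv (hcu.trans hcv.symm) Q hQ hQm huQ hvQ hpos
      linarith
    · rintro ⟨e⟩
      exact hemp.false (e.trans (SimpleGraph.Embedding.induce _))
  have h2 : (G.induce {v | c v = i}).cliqueNum ≤ k := by
    obtain ⟨s, hs⟩ := (G.induce {v | c v = i}).exists_isNClique_cliqueNum
    by_contra hgt
    push Not at hgt
    have h3 : (G.induce {v | c v = i}).CliqueFree (k + 1) := hfree.comap
      ⟨(SimpleGraph.Embedding.induce _).toCopy⟩
    exact (h3.mono hgt) s hs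
  have h3 : f (G.induce {v | c v = i}).cliqueNum ≤ (Finset.range (k + 1)).sup f :=
    Finset.le_sup (f := f) (Finset.mem_range.2 (by omega))
  rw [← SimpleGraph.chromaticNumber_le_iff_colorable]
  exact h1.trans (by exact_mod_cast h3)

end Pool.Agent.TH346.LG
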