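import Pool.Agent.TH346.LG.Tri

/-!
# Gyárfás–Sumner for graphs of small local growth

All graphs are finite and `B(v)` is the ball of radius `6` about `v`.  `w ≥ 0` is a weight on the
vertices of `G` with any total.  A clique is *maximal* if no vertex is adjacent to all of its
members.  For a maximal clique `Q` and `v ∈ Q` the *exchange weight* of `v` in `Q` is the total
weight of the vertices which are adjacent to all members of `Q` other than `v`.  An edge `u v` is
*locally `ε`-rich* if, for some maximal clique `Q` containing `u` and `v`, the exchange weight of `v`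
in `Q` is positive and at least `ε w(B(u))`.  (The exchange vertices are neighbours of `u`; in a
triangle-free graph with `w = 1` the condition is `ε |B(u)| ≤ d(u)`.)

* For every bipartite `F`, all `k` and `ε > 0` there is `C` such that in every graph without induced
  `F` and without clique of size `k + 1`, for every weight, the locally rich edges form a graph of
  chromatic number at most `C`.
* For every forest `F`, all `k`, `n` and `ε > 0` there is `C` such that `χ(G) ≤ C` for every such
  graph with a weight for which every half-graph of order `n` contains a locally rich edge.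
* In particular, for every bipartite `F` and all `K`, the chromatic number is bounded on the
  triangle-free Cayley graphs without induced `F` of the finite symmetric sets `A` of small tripling,
  `|A ^ 3| ≤ K |A|`, in finite groups.

The proof localises the theorem `Pool.Agent.W259.GS.main` of the starting library, which is the case
of a weight with total `1` and of `ε` in place of `ε w(B(u))`.  One takes a maximal family of
vertices `x` with `ε w(B(x)) ≤ w(N(x))` and disjoint neighbourhoods, uses the theorem in the ball of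
radius `3` about each of them and glues: every vertex of this kind is near a member of the family,
and at most `1 / ε ^ 2` members are at distance at most `5` from a given one.
-/

namespace Pool.Agent.TH346.LG.LocalGrowth

/-- `Q` is a clique and no vertex is adjacent to all members of `Q`. -/
def MaxClique {V : Type} (G : SimpleGraph V) (Q : Finset V) : Prop :=
  G.IsClique (Q : Set V) ∧ ∀ z, ∃ q ∈ Q, ¬ G.Adj q z

open Classical in
/-- The total weight of the vertices which are adjacent to all members of `Q` other than `v`. -/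
noncomputable def exchangeWeight {V : Type} [Fintype V] (G : SimpleGraph V) (w : V → ℝ)
    (Q : Finset V) (v : V) : ℝ :=
  ∑ z, if (∀ q ∈ Q, q ≠ v → G.Adj q z) then w z else 0

/-- The ball of radius `6` about `v`. -/
def ball {V : Type} (G : SimpleGraph V) (v : V) : Set V := {z | G.edist v z ≤ 6}

open Classical in
/-- The total weight of the ball of radius `6` about `v`. -/
noncomputable def ballWeight {V : Type} [Fintype V] (G : SimpleGraph V) (w : V → ℝ) (v : V) : ℝ :=
  ∑ z, if z ∈ ball G v then w z else 0

/-- The edge `u v` is locally `ε`-rich. -/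
def LocallyRich {V : Type} [Fintype V] (G : SimpleGraph V) (w : V → ℝ) (ε : ℝ) (u v : V) : Prop :=
  G.Adj u v ∧ ∃ Q : Finset V, MaxClique G Q ∧ u ∈ Q ∧ v ∈ Q ∧
    0 < exchangeWeight G w Q v ∧ ε * ballWeight G w u ≤ exchangeWeight G w Q v

/-- `a`, `b` form a half-graph: `a i` is adjacent to `b j` if and only if `i ≤ j`. -/
def IsHalfGraph {V : Type} (G : SimpleGraph V) {n : ℕ} (a b : Fin n → V) : Prop :=
  ∀ i j, G.Adj (a i) (b j) ↔ i ≤ j

lemma ballWeight_eq {V : Type} [Fintype V] (G : SimpleGraph V) (w : V → ℝ) (v : V) :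
    ballWeight G w v = Pool.Agent.TH346.LG.bw G w 6 v := by
  unfold ballWeight Pool.Agent.TH346.LG.bw ball
  apply Finset.sum_congr rfl
  intro z _
  simp

open scoped Pointwise in
theorem result :
    -- the locally rich edges
    (∀ (m : ℕ) (F : SimpleGraph (Fin m)), F.IsBipartite → ∀ (k : ℕ) (ε : ℝ), 0 < ε →
      ∃ C : ℕ, ∀ (V : Type) [Fintype V] (G : SimpleGraph V) (w : V → ℝ), (∀ v, 0 ≤ w v) →
        G.CliqueFree (k + 1) → ¬ F.IsIndContained G →
        ∃ c : V → Fin C, ∀ u v, LocallyRich G w ε u v → c u ≠ c v) ∧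
    -- a locally rich edge in every large half-graph
    (∀ (m : ℕ) (F : SimpleGraph (Fin m)), F.IsAcyclic → ∀ (k n : ℕ) (ε : ℝ), 0 < ε →
      ∃ C : ℕ, ∀ (V : Type) [Fintype V] (G : SimpleGraph V) (w : V → ℝ), (∀ v, 0 ≤ w v) →
        G.CliqueFree (k + 1) → ¬ F.IsIndContained G →
        (∀ a b : Fin n → V, IsHalfGraph G a b → ∃ u v, (u ∈ Set.range a ∨ u ∈ Set.range b) ∧
          (v ∈ Set.range a ∨ v ∈ Set.range b) ∧ LocallyRich G w ε u v) →
        G.Colorable C) ∧
    -- Cayley graphs of small tripling
    (∀ (m : ℕ) (F : SimpleGraph (Fin m)), F.IsBipartite → ∀ K : ℝ,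
      ∃ C : ℕ, ∀ (Γ : Type) [Group Γ] [Fintype Γ] [DecidableEq Γ] (A : Finset Γ), A⁻¹ = A →
        ((A ^ 3).card : ℝ) ≤ K * A.card →
        (SimpleGraph.mulCayley (A : Set Γ)).CliqueFree 3 →
        ¬ F.IsIndContained (SimpleGraph.mulCayley (A : Set Γ)) →
        (SimpleGraph.mulCayley (A : Set Γ)).Colorable C) := by
  refine ⟨?_, ?_, ?_⟩
  · intro m F hF k ε hε
    obtain ⟨C, hC⟩ := Pool.Agent.TH346.LG.local_main F hF k ε hε
    refine ⟨C, ?_⟩
    intro V _ G w hw hfree hind
    obtain ⟨c, hc⟩ := hC V G w hw hfree ⟨fun f => hind ⟨f⟩⟩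
    refine ⟨c, ?_⟩
    rintro u v ⟨huv, Q, hQ, hu, hv, hpos, hge⟩ huc
    have h2 := hc u v huv huc Q hQ.1 hQ.2 hu hv hpos
    rw [ballWeight_eq] at hge
    exact absurd hge (not_le.2 h2)
  · intro m F hF k n ε hε
    obtain ⟨C, hC⟩ := Pool.Agent.TH346.LG.local_comb F hF k n ε hε
    refine ⟨C, ?_⟩
    intro V _ G w hw hfree hind hhalf
    refine hC V G w hw hfree ⟨fun f => hind ⟨f⟩⟩ ?_
    intro a b hab
    obtain ⟨u, v, hu, hv, huv, Q, hQ, huQ, hvQ, hpos, hge⟩ := hhalf a b hab
    rw [ballWeight_eq] at hge
    exact ⟨u, v, hu, hv, huv, Q, hQ.1, hQ.2, huQ, hvQ, hpos, hge⟩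
  · intro m F hF K
    obtain ⟨C, hC⟩ := Pool.Agent.TH346.LG.cay_main F hF K
    exact ⟨C, fun Γ _ _ _ A hA hK h3 hind => hC Γ A hA hK h3 ⟨fun f => hind ⟨f⟩⟩⟩

end Pool.Agent.TH346.LG.LocalGrowth
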