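import Pool.Agent.TH346.LG.Local
import Mathlib

/-!
# Triangle-free graphs and Cayley graphs
-/

namespace Pool.Agent.TH346.LG

open Finset Pool.Agent.W259.GS

theorem bw_one {V : Type} [Fintype V] (G : SimpleGraph V) (u : V) :
    bw G (fun _ => 1) 6 u = ({z | G.edist u z ≤ 6} : Set V).ncard := by
  classical
  unfold bw
  rw [Finset.sum_boole, Set.ncard_eq_toFinset_card']
  congr 2
  ext z
  simp

theorem exch_pair {V : Type} [Fintype V] (G : SimpleGraph V) [DecidableEq V] {u v : V}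
    (huv : u ≠ v) :
    exch G (fun _ => 1) {u, v} v = (G.neighborSet u).ncard := by
  classical
  have h1 : ∀ z, (∀ q ∈ ({u, v} : Finset V), q ≠ v → G.Adj q z) ↔ G.Adj u z := by
    intro z
    constructor
    · intro h
      exact h u (by simp) huv
    · intro h q hq hqv
      rcases Finset.mem_insert.1 hq with h2 | h2
      · rw [h2]; exact h
      · exact absurd (Finset.mem_singleton.1 h2) hqv
  have h2 : exch G (fun _ => 1) {u, v} v = ∑ z, if G.Adj u z then (1 : ℝ) else 0 := by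
    unfold exch
    apply Finset.sum_congr rfl
    intro z _
    by_cases h : G.Adj u z
    · rw [if_pos h, if_pos ((h1 z).2 h)]
    · rw [if_neg h, if_neg (fun h' => h ((h1 z).1 h'))]
  rw [h2, Finset.sum_boole, Set.ncard_eq_toFinset_card']
  congr 2
  ext z
  simp

/-- In a triangle-free graph an edge is a maximal clique. -/
theorem pair_max {V : Type} [Fintype V] (G : SimpleGraph V) [DecidableEq V]
    (h3 : G.CliqueFree 3) {u v : V} (huv : G.Adj u v) :
    G.IsClique (({u, v} : Finset V) : Set V) ∧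
      ∀ z, ∃ q ∈ ({u, v} : Finset V), ¬ G.Adj q z := by
  constructor
  · rw [Finset.coe_insert, Finset.coe_singleton, SimpleGraph.isClique_pair]
    exact fun _ => huv
  · intro z
    by_contra hno
    push Not at hno
    have h1 := hno u (by simp)
    have h2 := hno v (by simp)
    refine h3 {u, v, z} ?_
    rw [SimpleGraph.is3Clique_triple_iff]
    exact ⟨huv, h1, h2⟩

theorem pos_neigh {V : Type} [Fintype V] (G : SimpleGraph V) {u v : V} (huv : G.Adj u v) :
    0 < (G.neighborSet u).ncard := by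
  rw [Set.ncard_pos (Set.toFinite _)]
  exact ⟨v, huv⟩

theorem tri_main {α : Type} [Fintype α] (F : SimpleGraph α) (hF : F.Colorable 2) (K : ℝ) :
    ∃ C : ℕ, ∀ (V : Type) [Fintype V] (G : SimpleGraph V), G.CliqueFree 3 →
    IsEmpty (F ↪g G) →
    (∀ u v, G.Adj u v →
      (({z | G.edist u z ≤ 6} : Set V).ncard : ℝ) ≤ K * (G.neighborSet u).ncard ∨
      (({z | G.edist v z ≤ 6} : Set V).ncard : ℝ) ≤ K * (G.neighborSet v).ncard) →
    G.Colorable C := by
  classical
  have hK : (0 : ℝ) < max K 1 := lt_of_lt_of_le one_pos (le_max_right _ _)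
  obtain ⟨C, hC⟩ := local_main F hF 2 (1 / max K 1) (by positivity)
  refine ⟨C, ?_⟩
  intro V _ G h3 hemp hgrowth
  obtain ⟨c, hc⟩ := hC V G (fun _ => 1) (fun _ => zero_le_one) h3 hemp
  have key : ∀ u v, G.Adj u v → c u = c v →
      ¬ (({z | G.edist u z ≤ 6} : Set V).ncard : ℝ) ≤ K * (G.neighborSet u).ncard := by
    intro u v huv huc hle
    have hm := pair_max G h3 huv
    have h1 := hc u v huv huc {u, v} hm.1 hm.2 (by simp) (by simp)
    rw [exch_pair G huv.ne, bw_one] at h1
    have h2 : (0 : ℝ) < ((G.neighborSet u).ncard : ℝ) := by exact_mod_cast pos_neigh G huv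
    have h4 := h1 h2
    have h5 : (({z | G.edist u z ≤ 6} : Set V).ncard : ℝ) ≤
        max K 1 * (G.neighborSet u).ncard :=
      hle.trans (mul_le_mul_of_nonneg_right (le_max_left _ _) h2.le)
    have h6 : 1 / max K 1 * (({z | G.edist u z ≤ 6} : Set V).ncard : ℝ) ≤
        (G.neighborSet u).ncard := by
      rw [one_div, inv_mul_le_iff₀ hK]
      exact h5
    linarith
  refine ⟨SimpleGraph.Coloring.mk c ?_⟩
  intro u v huv huc
  rcases hgrowth u v huv with h | h
  · exact key u v huv huc h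
  · exact key v u huv.symm huc.symm h

theorem tri_comb {m : ℕ} (F : SimpleGraph (Fin m)) (hF : F.IsAcyclic) (n : ℕ) (K : ℝ) :
    ∃ C : ℕ, ∀ (V : Type) [Fintype V] (G : SimpleGraph V), G.CliqueFree 3 →
    IsEmpty (F ↪g G) →
    (∀ a b : Fin n → V, (∀ i j, G.Adj (a i) (b j) ↔ i ≤ j) →
      ∃ u, (u ∈ Set.range a ∨ u ∈ Set.range b) ∧
      (({z | G.edist u z ≤ 6} : Set V).ncard : ℝ) ≤ K * (G.neighborSet u).ncard) →
    G.Colorable C := by
  classical
  have hK : (0 : ℝ) < max K 1 := lt_of_lt_of_le one_pos (le_max_right _ _)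
  obtain ⟨C, hC⟩ := local_comb F hF 2 n (1 / max K 1) (by positivity)
  refine ⟨C, ?_⟩
  intro V _ G h3 hemp hhalf
  refine hC V G (fun _ => 1) (fun _ => zero_le_one) h3 hemp ?_
  intro a b hab
  obtain ⟨u, hu, hle⟩ := hhalf a b hab
  obtain ⟨v, hv, huv⟩ : ∃ v, (v ∈ Set.range a ∨ v ∈ Set.range b) ∧ G.Adj u v := by
    rcases hu with ⟨i, rfl⟩ | ⟨j, rfl⟩
    · exact ⟨b i, Or.inr ⟨i, rfl⟩, (hab i i).2 le_rfl⟩
    · exact ⟨a j, Or.inl ⟨j, rfl⟩, ((hab j j).2 le_rfl).symm⟩
  have hm := pair_max G h3 huv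
  refine ⟨u, v, hu, hv, huv, {u, v}, hm.1, hm.2, by simp, by simp, ?_, ?_⟩
  · rw [exch_pair G huv.ne]
    exact_mod_cast pos_neigh G huv
  · rw [exch_pair G huv.ne, bw_one, one_div, inv_mul_le_iff₀ hK]
    have h2 : (0 : ℝ) < ((G.neighborSet u).ncard : ℝ) := by exact_mod_cast pos_neigh G huv
    exact hle.trans (mul_le_mul_of_nonneg_right (le_max_left _ _) h2.le)

open scoped Pointwise

theorem cay_walk {Γ : Type} [Group Γ] [DecidableEq Γ] (A : Finset Γ) (hA : A⁻¹ = A) {v z : Γ}
    (p : (SimpleGraph.mulCayley (A : Set Γ)).Walk v z) : v⁻¹ * z ∈ A ^ p.length := by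
  induction p with
  | nil => simp
  | @cons v x z h q ih =>
    have h1 : v⁻¹ * x ∈ A := by
      rw [SimpleGraph.mulCayley_adj'] at h
      obtain ⟨_, g, hg, h2 | h2⟩ := h
      · rw [← h2]
        simpa using hg
      · rw [h2, ← hA, Finset.mem_inv']
        simpa using hg
    rw [SimpleGraph.Walk.length_cons, pow_succ']
    have h3 : v⁻¹ * z = (v⁻¹ * x) * (x⁻¹ * z) := by group
    rw [h3]
    exact Finset.mul_mem_mul h1 ih

theorem cay_ball {Γ : Type} [Group Γ] [Fintype Γ] [DecidableEq Γ] (A : Finset Γ) (hA : A⁻¹ = A)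
    (hne : A.Nonempty) (K : ℝ) (hK : ((A ^ 3).card : ℝ) ≤ K * A.card) (u : Γ) :
    (({z | (SimpleGraph.mulCayley (A : Set Γ)).edist u z ≤ 6} : Set Γ).ncard : ℝ) ≤
      7 * K ^ 4 * A.card := by
  have h1 : ({z | (SimpleGraph.mulCayley (A : Set Γ)).edist u z ≤ 6} : Set Γ) ⊆
      (((Finset.range 7).biUnion fun j => (A ^ j).image (fun g => u * g) : Finset Γ) : Set Γ) := by
    intro z hz
    have hz' : (SimpleGraph.mulCayley (A : Set Γ)).edist u z ≤ 6 := hz
    have hne : (SimpleGraph.mulCayley (A : Set Γ)).edist u z ≠ ⊤ := by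
      intro h
      rw [h] at hz'
      exact absurd hz' (by simp)
    obtain ⟨p, hp⟩ := SimpleGraph.exists_walk_of_edist_ne_top hne
    rw [← hp] at hz'
    have h6 : p.length ≤ 6 := by exact_mod_cast hz'
    rw [Finset.mem_coe, Finset.mem_biUnion]
    exact ⟨p.length, Finset.mem_range.2 (by omega), Finset.mem_image.2
      ⟨u⁻¹ * z, cay_walk A hA p, by group⟩⟩
  have h2 : ({z | (SimpleGraph.mulCayley (A : Set Γ)).edist u z ≤ 6} : Set Γ).ncard ≤
      7 * (A ^ 6).card := by
    refine (Set.ncard_le_ncard h1 (Finset.finite_toSet _)).trans ?_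
    rw [Set.ncard_coe_finset]
    refine Finset.card_biUnion_le.trans ?_
    calc ∑ j ∈ Finset.range 7, ((A ^ j).image (fun g => u * g)).card
        ≤ ∑ _j ∈ Finset.range 7, (A ^ 6).card := by
          apply Finset.sum_le_sum
          intro j hj
          refine Finset.card_image_le.trans ?_
          exact hne.card_pow_mono (by have := Finset.mem_range.1 hj; omega)
      _ = 7 * (A ^ 6).card := by simp
  have h3 := Finset.small_pow_of_small_tripling (m := 6) (by norm_num) hK hA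
  have h4 : (({z | (SimpleGraph.mulCayley (A : Set Γ)).edist u z ≤ 6} : Set Γ).ncard : ℝ) ≤
      7 * ((A ^ 6).card : ℝ) := by exact_mod_cast h2
  norm_num at h3
  linarith

theorem cay_main {α : Type} [Fintype α] (F : SimpleGraph α) (hF : F.Colorable 2) (K : ℝ) :
    ∃ C : ℕ, ∀ (Γ : Type) [Group Γ] [Fintype Γ] [DecidableEq Γ] (A : Finset Γ), A⁻¹ = A →
    ((A ^ 3).card : ℝ) ≤ K * A.card →
    (SimpleGraph.mulCayley (A : Set Γ)).CliqueFree 3 →
    IsEmpty (F ↪g SimpleGraph.mulCayley (A : Set Γ)) →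
    (SimpleGraph.mulCayley (A : Set Γ)).Colorable C := by
  obtain ⟨C, hC⟩ := tri_main F hF (14 * K ^ 4)
  refine ⟨C, ?_⟩
  intro Γ _ _ _ A hA hK h3 hemp
  refine hC Γ _ h3 hemp ?_
  intro u v huv
  left
  have hne : A.Nonempty := by
    rw [SimpleGraph.mulCayley_adj'] at huv
    obtain ⟨_, g, hg, _⟩ := huv
    exact ⟨g, hg⟩
  refine (cay_ball A hA hne K hK u).trans ?_
  have hd : A.card ≤ ((SimpleGraph.mulCayley (A : Set Γ)).neighborSet u).ncard + 1 := by
    have h1 : ((A.image (fun g => u * g) : Finset Γ) : Set Γ) ⊆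
        insert u ((SimpleGraph.mulCayley (A : Set Γ)).neighborSet u) := by
      intro z hz
      rw [Finset.mem_coe, Finset.mem_image] at hz
      obtain ⟨g, hg, rfl⟩ := hz
      by_cases h : u * g = u
      · exact Set.mem_insert_iff.2 (Or.inl h)
      · refine Set.mem_insert_iff.2 (Or.inr ?_)
        rw [SimpleGraph.mem_neighborSet, SimpleGraph.mulCayley_adj']
        exact ⟨fun h' => h h'.symm, g, hg, Or.inl rfl⟩
    have h2 := Set.ncard_le_ncard h1 (Set.toFinite _)
    rw [Set.ncard_coe_finset, Finset.card_image_of_injective _ (mul_right_injective u)] at h2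
    exact h2.trans (Set.ncard_insert_le _ _)
  have hd1 : 1 ≤ ((SimpleGraph.mulCayley (A : Set Γ)).neighborSet u).ncard :=
    pos_neigh _ huv
  have hd2 : (A.card : ℝ) ≤ 2 * ((SimpleGraph.mulCayley (A : Set Γ)).neighborSet u).ncard := by
    have : A.card ≤ 2 * ((SimpleGraph.mulCayley (A : Set Γ)).neighborSet u).ncard := by omega
    exact_mod_cast this
  have hK4 : (0 : ℝ) ≤ 7 * K ^ 4 := by positivity
  calc 7 * K ^ 4 * (A.card : ℝ) ≤ 7 * K ^ 4 *
        (2 * ((SimpleGraph.mulCayley (A : Set Γ)).neighborSet u).ncard) :=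
        mul_le_mul_of_nonneg_left hd2 hK4
    _ = _ := by ring

end Pool.Agent.TH346.LG
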